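import Pool.Agent.X20.Tr.PrIff
import Pool.Agent.Results.MP_d0fd9b_nt.SmallUnits

/-!
# The class numbers of the real quadratic fields of the primes `⌊α n ^ c⌋`

The Cohen-Lenstra density for the fields of prime radicand `p`, and the same for the primes `p = ⌊α n ^ c⌋`.
From Mathlib: `dimH E`: the Hausdorff dimension; `⌊x⌋₊`: the integer part; `Finset.Icc 1 N` and `Finset.Ioc 0 N`: the
integers from `1` to `N`. From the team's `SmallUnits` the property `GoodAR a p` is used as it is (in the field of
`√p`, with `B = (log p) ^ a` and `n = log p / log log p`: each ideal is the product of a totally positive element, which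
can be prescribed approximately, and of at most `n` prime ideals of norm at most `B`; the `B`-units are generated by
small ones; unique factorisation is decided by the small relations).
-/

set_option autoImplicit false

namespace Pool.Agent.Results.MP_d0fd9b_nt.AlongDilatedPowers

open Finset Filter NumberField
open Pool.Agent.X20.Tr
open Pool.Agent.Y854.PS (ms xs)
open Pool.Agent.H951R5.AR (GoodAR)

/-- `p` is a prime and the class number of the real quadratic field of `√p` is in the set `S`. -/
def ClassNumber (S : Set ℕ) (p : ℕ) : Prop :=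
  p.Prime ∧ ∀ (K : Type) [Field K] [NumberField K], Module.finrank ℚ K = 2 →
    (∃ x : K, x ^ 2 = (p : K)) → Nat.card (ClassGroup (𝓞 K)) ∈ S

open Classical in
/-- The share, among the primes `p ≤ X`, of those with the property `G`. -/
noncomputable def share (G : ℕ → Prop) (X : ℕ) : ℝ :=
  (((Icc 1 X).filter (fun p => p.Prime ∧ G p)).card : ℝ) / (((Icc 1 X).filter (fun p => p.Prime)).card : ℝ)

open Classical in
/-- The share, among the `n ≤ N` for which `⌊α n ^ c⌋` is a prime, of those for which this prime has the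
property `G`. -/
noncomputable def shareAlong (α c : ℝ) (G : ℕ → Prop) (N : ℕ) : ℝ :=
  (((Icc 1 N).filter (fun n : ℕ => (⌊α * (n : ℝ) ^ c⌋₊).Prime ∧ G ⌊α * (n : ℝ) ^ c⌋₊)).card : ℝ) /
    (((Icc 1 N).filter (fun n : ℕ => (⌊α * (n : ℝ) ^ c⌋₊).Prime)).card : ℝ)

lemma card_eq (s : Finset ℕ) {p q : ℕ → Prop} {dp : DecidablePred p} {dq : DecidablePred q}
    (h : ∀ x, p x ↔ q x) : (@Finset.filter ℕ p dp s).card = (@Finset.filter ℕ q dq s).card := by
  congr 1
  ext x
  rw [mem_filter, mem_filter, h x]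

/-- the set of the primes with the property `G` -/
def PS (G : ℕ → Prop) : Set ℕ := {p | p.Prime ∧ G p}

lemma share_eq (G : ℕ → Prop) (X : ℕ) : share G X = (cnt (PS G) X : ℝ) / Nat.primeCounting X := by
  unfold share
  rw [← cnt_primes]
  unfold cnt
  exact congrArg₂ (fun a b : ℕ => (a : ℝ) / (b : ℝ)) (card_eq _ fun x => Iff.rfl) (card_eq _ fun x => Iff.rfl)

lemma shareAlong_eq (α c : ℝ) (G : ℕ → Prop) (N : ℕ) :
    shareAlong α c G N = (hit c α (PS G) N : ℝ) / hit c α Primes N := by
  unfold shareAlong hit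
  exact congrArg₂ (fun a b : ℕ => (a : ℝ) / (b : ℝ)) (card_eq _ fun x => Iff.rfl) (card_eq _ fun x => Iff.rfl)

lemma main_iff {c α κ : ℝ} (hc : 1 < c) (hα : 0 < α) (hκ : 0 < κ) (hκ1 : κ < 1) (G : ℕ → Prop)
    (h : Cmp c α κ (ind (PS G))) (hP : Cmp c α κ (ind Primes)) (ρ : ℝ) :
    Tendsto (share G) atTop (nhds ρ) ↔ Tendsto (shareAlong α c G) atTop (nhds ρ) := by
  have h1 := prime_iff hc hα hκ hκ1 (G := PS G) (fun p hp => hp.1) h hP ρ
  have e1 : share G = fun X : ℕ => (cnt (PS G) X : ℝ) / Nat.primeCounting X := funext fun X => share_eq G X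
  have e2 : shareAlong α c G = fun N : ℕ => (hit c α (PS G) N : ℝ) / hit c α Primes N :=
    funext fun N => shareAlong_eq α c G N
  rw [e1, e2]
  exact h1

open Classical in
lemma nat_card (P : ℕ → Prop) (h0 : ¬ P 0) (X : ℕ) :
    Nat.card {p : ℕ // p ≤ X ∧ P p} = ((Icc 1 X).filter (fun p => P p)).card := by
  refine Nat.subtype_card _ fun x => ?_
  rw [mem_filter, mem_Icc]
  constructor
  · rintro ⟨⟨_, h1⟩, h2⟩
    exact ⟨h1, h2⟩
  · rintro ⟨h1, h2⟩
    refine ⟨⟨?_, h1⟩, h2⟩
    rcases Nat.eq_zero_or_pos x with h3 | h3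
    · rw [h3] at h2
      exact absurd h2 h0
    · exact h3

lemma good_share (a : ℝ) (ha : 2 < a) : Tendsto (share (fun p => ¬ GoodAR a p)) atTop (nhds 0) := by
  refine (SmallUnits.result a ha).congr fun X => ?_
  rw [nat_card (fun p => p.Prime ∧ ¬ GoodAR a p) (fun h => Nat.not_prime_zero h.1),
    nat_card (fun p => p.Prime) Nat.not_prime_zero]
  unfold share
  exact congrArg₂ (fun a b : ℕ => (a : ℝ) / (b : ℝ)) (card_eq _ fun x => Iff.rfl) (card_eq _ fun x => Iff.rfl)

open Classical in
/-- For every real `c > 1` there are `κ > 0` and a set `E` of real numbers of Hausdorff dimension at most `1 - κ`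
such that for every real `α > 0` outside `E`:

* the class number has the density `ρ` at `h` among the primes of the sequence `⌊α n ^ c⌋` if and only if it has this
  density at `h` among all primes, for every `h` and every real `ρ`. In particular (`h = 1`) the density conjectured by
  Cohen and Lenstra holds among all primes if and only if it holds among the primes of the sequence. The same for the
  set of the primes for which the class number is divisible by `q`, for every `q`;
* for all large `N` and ALL `h ≤ N ^ κ` the number of the `n ≤ N` for which `⌊α n ^ c⌋` is a prime with class number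
  `h` is, up to `N ^ (1 - κ)`, the number of all primes `p ≤ α N ^ c` with class number `h`, counted with the weights
  `(1 / c) α ^ (-1 / c) p ^ (1 / c - 1)` (the density of the sequence at `p`);
* for every rational `a > 2` the property `GoodAR a` holds for 100% of the primes of the sequence. In particular for
  100% of them the class number is one if and only if every prime ideal of norm at most `(log p) ^ a` is generated by a
  product of powers of small elements. -/
theorem result (c : ℝ) (hc : 1 < c) : ∃ κ : ℝ, 0 < κ ∧ κ < 1 ∧ ∃ E : Set ℝ, dimH E ≤ ENNReal.ofReal (1 - κ) ∧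
    ∀ α : ℝ, 0 < α → α ∉ E →
      (∀ S : Set ℕ, ((∃ h : ℕ, S = {h}) ∨ (∃ q : ℕ, S = {h | q ∣ h})) → ∀ ρ : ℝ,
        (Tendsto (share (ClassNumber S)) atTop (nhds ρ) ↔
          Tendsto (shareAlong α c (ClassNumber S)) atTop (nhds ρ))) ∧
      (∃ N₀ : ℕ, ∀ N : ℕ, N₀ ≤ N → ∀ h : ℕ, (h : ℝ) ≤ (N : ℝ) ^ κ →
        |(((Icc 1 N).filter (fun n : ℕ => ClassNumber {h} ⌊α * (n : ℝ) ^ c⌋₊)).card : ℝ) -
          ∑ p ∈ (Ioc 0 ⌊α * (N : ℝ) ^ c⌋₊).filter (fun p : ℕ => ClassNumber {h} p),
            1 / c * α ^ (-(1 / c)) * (p : ℝ) ^ (1 / c - 1)| ≤ (N : ℝ) ^ (1 - κ)) ∧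
      (∀ a : ℚ, 2 < a → Tendsto (shareAlong α c (fun p => ¬ GoodAR a p)) atTop (nhds 0)) := by
  obtain ⟨κ, hκ0, hκ1, H⟩ := two_fam c hc
  obtain ⟨E, hE, h⟩ := H (fun t => ind {m | ClassNumber {t} m}) (fun t => ind_tri _)
    (Unit ⊕ ((ℕ ⊕ ℕ) ⊕ ℚ))
    (Sum.elim (fun _ => ind Primes) (Sum.elim (Sum.elim (fun t => ind (PS (ClassNumber {t})))
      (fun q => ind (PS (ClassNumber {h | q ∣ h})))) (fun a : ℚ => ind (PS (fun p => ¬ GoodAR a p)))))
    (by
      rintro (a | (b | b) | x)
      · exact ind_tri _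
      · exact ind_tri _
      · exact ind_tri _
      · exact ind_tri _)
  refine ⟨κ, hκ0, hκ1, E, hE, fun α hα hαE => ?_⟩
  obtain ⟨h1, _, h3⟩ := h α hα hαE
  have hP : Cmp c α κ (ind Primes) := h3 (Sum.inl ())
  refine ⟨?_, ?_, fun a ha => ?_⟩
  · rintro S (⟨t, rfl⟩ | ⟨q, rfl⟩) ρ
    · exact main_iff hc hα hκ0 hκ1 _ (h3 (Sum.inr (Sum.inl (Sum.inl t)))) hP ρ
    · exact main_iff hc hα hκ0 hκ1 _ (h3 (Sum.inr (Sum.inl (Sum.inr q)))) hP ρ
  · obtain ⟨N₁, h4⟩ := h1
    refine ⟨N₁, fun N hN t ht => ?_⟩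
    have h6 := (h4 N hN).2 t ht
    refine le_trans (le_of_eq ?_) h6
    congr 1
    congr 1
    · rw [sum_ind {m : ℕ | ClassNumber {t} m}]
      rfl
    · rw [sum_filter]
      apply sum_congr rfl
      intro m _
      unfold ind wt
      show (if ClassNumber {t} m then _ else (0 : ℝ)) = (if ClassNumber {t} m then (1 : ℝ) else 0) * _
      split_ifs
      · rw [one_mul]
      · rw [zero_mul]
  · exact (main_iff hc hα hκ0 hκ1 _ (h3 (Sum.inr (Sum.inr a))) hP 0).1 (good_share a (by exact_mod_cast ha))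

end Pool.Agent.Results.MP_d0fd9b_nt.AlongDilatedPowers
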